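import Pool.Agent.H.MP_38ba9c_an.Low

open Filter Topology MeasureTheory Set

namespace Pool.Agent.Results.MP_38ba9c_an.Sharp

open Pool.Agent.H.MP_38ba9c_an

variable {d : ℕ}

/-- f is locally integrable on [0, ∞) and u, with derivative v = u', solves u'' + c u' + A u = f:
u is differentiable on [0, ∞) with derivative v, v is locally absolutely continuous, and the
equation holds almost everywhere. -/
structure Sol (A : Matrix (Fin d) (Fin d) ℝ) (c : ℝ) (f u v : ℝ → EuclideanSpace ℝ (Fin d)) :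
    Prop where
  loc : ∀ b, 0 ≤ b → IntervalIntegrable f volume 0 b
  du : ∀ t, 0 ≤ t → HasDerivWithinAt u (v t) (Ici 0) t
  ac : ∀ b, 0 ≤ b → AbsolutelyContinuousOnInterval v 0 b
  eqn : ∀ᵐ t, 0 < t → ∃ w, HasDerivAt v w t ∧ w + c • v t + Matrix.toEuclideanLin A (u t) = f t

/-- The essential limsup of |f t| as t → ∞. -/
noncomputable def essLimsup (f : ℝ → EuclideanSpace ℝ (Fin d)) : ENNReal :=
  limsup (fun t => ‖f t‖ₑ) (atTop ⊓ ae volume)

/-- The constants K ≥ 0 with limsup |u'| ≤ K esslimsup |f| for all f and all solutions u. -/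
def Adm (A : Matrix (Fin d) (Fin d) ℝ) (c : ℝ) : Set ℝ :=
  {K | 0 ≤ K ∧ ∀ f u v, Sol A c f u v → essLimsup f < ⊤ →
    limsup (fun t => ‖v t‖ₑ) atTop ≤ ENNReal.ofReal K * essLimsup f}

/-- The constant K(A, c). -/
noncomputable def K (A : Matrix (Fin d) (Fin d) ℝ) (c : ℝ) : ℝ := sInf (Adm A c)

lemma mulE {E : ENNReal} (hE : E < ⊤) {k : ℝ} (hk : 0 ≤ k) :
    ENNReal.ofReal k * E = ENNReal.ofReal (k * E.toReal) := by
  rw [ENNReal.ofReal_mul hk, ENNReal.ofReal_toReal hE.ne]

lemma leOf {a E : ENNReal} (hE : E < ⊤) {k : ℝ} (hk : 0 ≤ k)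
    (h : ∀ η, 0 < η → a ≤ ENNReal.ofReal (k * E.toReal + η)) : a ≤ ENNReal.ofReal k * E :=
  ENNReal.le_of_forall_pos_le_add fun ε hε _ => (h ε hε).trans (by
    rw [mulE hE hk, ENNReal.ofReal_add (by positivity) ε.coe_nonneg, ENNReal.ofReal_coe_nnreal])

variable {A : Matrix (Fin d) (Fin d) ℝ} {c : ℝ}

lemma up (hA : A.PosDef) (hc : 0 < c) : (1 + √d) / c ∈ Adm A c := by
  have k0 : 0 < (1 + √d) / c := by positivity
  refine ⟨k0.le, fun f u v S hE => leOf hE k0.le fun η hη => ?_⟩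
  set δ := η / ((1 + √d) / c + 1) with hδ
  have δ0 : 0 < δ := by positivity
  have h1 : essLimsup f < ENNReal.ofReal ((essLimsup f).toReal + δ) :=
    (ENNReal.lt_ofReal_iff_toReal_lt hE.ne).2 (by linarith)
  obtain ⟨s, hs, s', hs', h2⟩ := eventually_inf.1 (eventually_lt_of_limsup_lt h1)
  obtain ⟨T, hT⟩ := mem_atTop_sets.1 hs
  have h3 := upper hA.1.eigenvectorBasis (Matrix.toEuclideanLin A) hA.1.eigenvalues
    hA.eigenvalues_pos (f := f) (fun i y => by
      rw [← Matrix.isSymmetric_toEuclideanLin_iff.2 hA.1, ← real_inner_smul_left]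
      congr 1
      ext j
      exact congrFun (hA.1.mulVec_eigenvectorBasis i) j) hc
    (fun s hs => (S.du s hs.le).hasDerivAt (Ici_mem_nhds hs)) S.ac
    (S.eqn.mono fun s h hs => by
      obtain ⟨w, h1, h2⟩ := h hs
      exact h1.congr_deriv (by rw [← h2]; abel))
    (M := (essLimsup f).toReal + δ) (T := max T 1) (by positivity) (by positivity)
    (mem_of_superset hs' fun x hx (h : max T 1 ≤ x) => by
      have := h2 x ⟨hT x ((le_max_left _ _).trans h), hx⟩
      rw [← ofReal_norm] at this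
      exact ((ENNReal.ofReal_lt_ofReal_iff (by positivity)).1 this).le) δ0
  refine limsup_le_of_le (h := h3.mono fun t ht => ?_)
  rw [← ofReal_norm]
  refine ENNReal.ofReal_le_ofReal (ht.trans_eq ?_)
  rw [Fintype.card_fin, ← div_mul_cancel₀ η (by positivity : (1 + √d) / c + 1 ≠ 0), ← hδ]
  ring

lemma least (hA : A.PosDef) (hc : 0 < c) : IsLeast (Adm A c) (K A c) := by
  have k0 : 0 ≤ K A c := Real.sInf_nonneg fun _ h => h.1
  refine ⟨⟨k0, fun f u v S hE => leOf hE k0 fun η hη => ?_⟩,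
    fun _ h => csInf_le ⟨0, fun _ h => h.1⟩ h⟩
  have e0 : 0 ≤ (essLimsup f).toReal := ENNReal.toReal_nonneg
  obtain ⟨k, hk, h⟩ := Real.lt_sInf_add_pos ⟨_, up hA hc⟩
    (by positivity : 0 < η / ((essLimsup f).toReal + 1))
  refine (hk.2 f u v S hE).trans ?_
  rw [mulE hE hk.1]
  refine ENNReal.ofReal_le_ofReal ((mul_le_mul_of_nonneg_right h.le e0).trans ?_)
  rw [add_mul, div_mul_eq_mul_div]
  exact add_le_add le_rfl ((div_le_iff₀ (by positivity)).2 (by nlinarith))

lemma bound (hA : A.PosDef) (hc : 0 < c) : c * K A c ≤ 1 + √d := by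
  rw [mul_comm, ← le_div_iff₀ hc]
  exact (least hA hc).2 (up hA hc)

lemma low (hd : 0 < d) {y N : ℝ} (hc : 0 < c) (hy : 0 < y) (hN : 14 ≤ N) (hcy : N ≤ c * y)
    {l : Fin d → ℝ} (hl : ∀ i, l i = c / (y * N ^ (2 * (i : ℕ) + 1))) :
    1 + √d - 14 * √d / N ≤ c * K (Matrix.diagonal l) c := by
  have N0 : 0 < N := by linarith
  have hA : (Matrix.diagonal l).PosDef := .diagonal fun i => by rw [hl]; positivity
  obtain ⟨f, u, v, cf, nf, du, dv, fr⟩ := lower hd (EuclideanSpace.basisFun (Fin d) ℝ)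
    (Matrix.toEuclideanLin (Matrix.diagonal l)) hc hy hN hcy fun i => by
      ext j
      by_cases h : j = i <;> simp [← hl, Matrix.toLpLin_apply, h]
  have cu : Continuous u := continuous_iff_continuousAt.2 fun t => (du t).continuousAt
  have cv : Continuous v := continuous_iff_continuousAt.2 fun t => (dv t).continuousAt
  have cB := (Matrix.toEuclideanLin (Matrix.diagonal l)).continuous_of_finiteDimensional
  have S : Sol (Matrix.diagonal l) c f u v := ⟨fun b _ => cf.intervalIntegrable _ _,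
    fun t _ => (du t).hasDerivWithinAt, fun b hb => acOf hb
      ((cf.sub (cv.const_smul c)).sub (cB.comp cu)).continuousOn
      fun t _ => (dv t).hasDerivWithinAt, .of_forall fun t _ => ⟨_, dv t, by abel⟩⟩
  have h1 : essLimsup f ≤ 1 := limsup_le_of_le (h := .of_forall fun t => by
    rw [← ofReal_norm]; exact ENNReal.ofReal_le_one.2 (nf t))
  have hK := (least hA hc).1
  have h2 := (hK.2 f u v S (h1.trans_lt ENNReal.one_lt_top)).trans (mul_le_of_le_one_right' h1)
  rw [← div_le_iff₀' hc, ← ENNReal.ofReal_le_ofReal_iff hK.1]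
  refine le_trans (le_limsup_of_frequently_le (fr.mono fun t ht => ?_)) h2
  rw [← ofReal_norm]
  exact ENNReal.ofReal_le_ofReal ((div_le_iff₀' hc).2 ht)

lemma lim {m : ℝ} (h : ∀ N : ℝ, 14 ≤ N → 1 + √d - 14 * √d / N ≤ m) : 1 + √d ≤ m :=
  le_of_forall_pos_le_add fun ε hε => by
    have h1 := h _ (le_max_left 14 (14 * √d / ε))
    have h2 : 14 * √d / max 14 (14 * √d / ε) ≤ ε := by
      rw [div_le_iff₀ (by positivity), mul_comm ε, ← div_le_iff₀ hε]
      exact le_max_right _ _
    linarith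

theorem result (d : ℕ) (hd : 1 ≤ d) :
    (∀ A : Matrix (Fin d) (Fin d) ℝ, A.PosDef → ∀ c, 0 < c → IsLeast (Adm A c) (K A c)) ∧
    (∀ c : ℝ, 0 < c →
      IsLUB {m | ∃ A : Matrix (Fin d) (Fin d) ℝ, A.PosDef ∧ m = c * K A c} (1 + √d)) ∧
    IsLUB {m | ∃ A : Matrix (Fin d) (Fin d) ℝ, A.PosDef ∧ m = liminf (fun c => c * K A c) atTop}
      (1 + √d) := by
  refine ⟨fun A hA c hc => least hA hc, fun c hc => ⟨?_, fun m hm => lim fun N hN => ?_⟩, ?_,
    fun m hm => lim fun N hN => ?_⟩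
  · rintro _ ⟨A, hA, rfl⟩
    exact bound hA hc
  · have N0 : 0 < N := by linarith
    exact (low hd (y := N / c) hc (by positivity) hN (mul_div_cancel₀ N hc.ne').ge
      fun _ => rfl).trans (hm ⟨_, .diagonal fun i => by positivity, rfl⟩)
  · rintro _ ⟨A, hA, rfl⟩
    exact liminf_le_of_frequently_le
      ((eventually_gt_atTop 0).mono fun c hc => bound hA hc).frequently
      (isBoundedUnder_of_eventually_ge ((eventually_gt_atTop 0).mono fun c hc =>
        mul_nonneg hc.le (least hA hc).1.1))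
  · have N0 : 0 < N := by linarith
    have hA : (Matrix.diagonal fun i : Fin d => 1 / N ^ (2 * (i : ℕ) + 1)).PosDef :=
      .diagonal fun i => by positivity
    refine le_trans (le_liminf_of_le (isCoboundedUnder_ge_of_eventually_le _
      ((eventually_gt_atTop 0).mono fun c hc => bound hA hc)) ?_) (hm ⟨_, hA, rfl⟩)
    filter_upwards [eventually_ge_atTop N] with c hc
    have c0 : 0 < c := by linarith
    exact low hd c0 c0 hN (by nlinarith) fun i => by field_simp

end Pool.Agent.Results.MP_38ba9c_an.Sharp
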